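import Pool.Agent.Lib.MP_3de1ca_gt.Main

set_option autoImplicit false

namespace Pool.Agent.Results.MP_3de1ca_gt.NonNilpotent

open Submodule

variable {ι L : Type} [Ring L] [Algebra ℚ L]

/-- `L = ΛV` is the free graded-commutative `ℚ`-algebra on the graded vector space `V` with
homogeneous basis `(v i)`, `i : ι`, where `v i` has degree `deg i`: the `v i` satisfy
`v i * v j = (-1) ^ (deg i * deg j) * v j * v i` (so that `v i ^ 2 = 0` if `deg i` is odd), and `L`
is universal with this property. -/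
def IsFreeGradedCommutative (deg : ι → ℕ) (v : ι → L) : Prop :=
  (∀ i j, v i * v j = (-1 : ℚ) ^ (deg i * deg j) • (v j * v i)) ∧
  ∀ (B : Type) [Ring B] [Algebra ℚ B] (f : ι → B),
    (∀ i j, f i * f j = (-1 : ℚ) ^ (deg i * deg j) • (f j * f i)) →
      ∃! φ : L →ₐ[ℚ] B, ∀ i, φ (v i) = f i

/-- The homogeneous component `(ΛV)^n`, spanned by the words in the `v i` of total degree `n`. -/
def component (deg : ι → ℕ) (v : ι → L) (n : ℕ) : Submodule ℚ L :=
  span ℚ {a | ∃ l : List ι, (l.map deg).sum = n ∧ (l.map v).prod = a}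

/-- `Λ^{≥ k} V`, spanned by the words in the `v i` of length at least `k`. -/
def lengthAtLeast (v : ι → L) (k : ℕ) : Submodule ℚ L :=
  span ℚ {a | ∃ l : List ι, k ≤ l.length ∧ (l.map v).prod = a}

/-- The ideal of `ΛV` generated by `V^{<k}`. -/
def idealBelow (deg : ι → ℕ) (v : ι → L) (k : ℕ) : Submodule ℚ L :=
  span ℚ {c | ∃ (a b : L) (i : ι), deg i < k ∧ a * v i * b = c}

/-- `(L, d)` is a minimal Sullivan algebra `(ΛV, d)` with `V = V^{≥ 2}`, where `V` has the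
homogeneous basis `(v i)`, `v i` of degree `deg i`. -/
structure IsMinimalSullivan (deg : ι → ℕ) (v : ι → L) (d : L →ₗ[ℚ] L) : Prop where
  /-- `L = ΛV` -/
  free : IsFreeGradedCommutative deg v
  /-- `V = V^{≥ 2}` -/
  two_le : ∀ i, 2 ≤ deg i
  /-- `d` has degree `+1` -/
  degree : ∀ (n : ℕ) (a : L), a ∈ component deg v n → d a ∈ component deg v (n + 1)
  /-- `d` is a derivation -/
  leibniz : ∀ (n : ℕ) (a b : L), a ∈ component deg v n →
    d (a * b) = d a * b + (-1 : ℚ) ^ n • (a * d b)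
  /-- `d ∘ d = 0` -/
  square : ∀ a, d (d a) = 0
  /-- `d V ⊆ Λ^{≥ 2} V` -/
  minimal : ∀ i, d (v i) ∈ lengthAtLeast v 2

/-- The even cocycles of `(ΛV, d)`. -/
def evenCocycles (deg : ι → ℕ) (v : ι → L) (d : L →ₗ[ℚ] L) : Submodule ℚ L :=
  LinearMap.ker d ⊓ ⨆ n : ℕ, component deg v (2 * n)

/-- `H^even(ΛV, d)`: the even cocycles modulo the coboundaries. -/
abbrev EvenCohomology (deg : ι → ℕ) (v : ι → L) (d : L →ₗ[ℚ] L) : Type :=
  evenCocycles deg v d ⧸ (LinearMap.range d).comap (evenCocycles deg v d).subtype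

/-- The basis element `v i` is nilpotent in `H(ΛV^{≥ deg i}, d̄)`, the cohomology of the quotient
of `(ΛV, d)` by the ideal generated by `V^{<k}`, `k = deg i`: for some `m ≥ 1` and some `b`, the
power `(v i) ^ m` equals the coboundary `d b` modulo that ideal. -/
def IsNilpotentInQuotient (deg : ι → ℕ) (v : ι → L) (d : L →ₗ[ℚ] L) (i : ι) : Prop :=
  ∃ m : ℕ, 1 ≤ m ∧ ∃ b : L, (v i) ^ m - d b ∈ idealBelow deg v (deg i)

/-- **Negative answer to Q1.**  There is a minimal Sullivan algebra `(ΛV, d)` over `ℚ` with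
`V = V^{≥ 2}` of finite type, with `V^even` and `H^even(ΛV, d)` finite dimensional, and a
homogeneous basis `(v i)` of `V`, such that some `v i` is not nilpotent in
`H(ΛV^{≥ deg i}, d̄)`. -/
theorem result : ∃ (ι L : Type) (_ : Ring L) (_ : Algebra ℚ L) (deg : ι → ℕ) (v : ι → L)
    (d : L →ₗ[ℚ] L), IsMinimalSullivan deg v d ∧
      (∀ n : ℕ, {i : ι | deg i = n}.Finite) ∧
      {i : ι | Even (deg i)}.Finite ∧
      FiniteDimensional ℚ (EvenCohomology deg v d) ∧
      ∃ i : ι, ¬ IsNilpotentInQuotient deg v d i := by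
  obtain ⟨ι, A, h1, h2, h3, i, h4⟩ := Pool.Agent.Lib.MP_3de1ca_gt.main
  refine ⟨ι, Pool.Agent.Lib.MP_3de1ca_gt.Lam A.deg, inferInstance, inferInstance, A.deg,
    Pool.Agent.Lib.MP_3de1ca_gt.gen A.deg, A.d, ⟨⟨?_, ?_⟩, A.two_le, A.d_mem, A.d_mul, A.d_d,
    A.minimal⟩, h1, h2, h3, i, h4⟩
  · exact Pool.Agent.Lib.MP_3de1ca_gt.gen_comm
  · intro B _ _ f hf
    refine ⟨Pool.Agent.Lib.MP_3de1ca_gt.lift f hf,
      fun i => Pool.Agent.Lib.MP_3de1ca_gt.lift_gen f hf i, ?_⟩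
    intro φ hφ
    refine Pool.Agent.Lib.MP_3de1ca_gt.algHom_ext' fun i => ?_
    rw [hφ i, Pool.Agent.Lib.MP_3de1ca_gt.lift_gen]

end Pool.Agent.Results.MP_3de1ca_gt.NonNilpotent
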